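import Pool.Agent.Helper57.QZ.Stmts

set_option autoImplicit false

namespace Pool.Agent.Helper57.QZ

open MeasureTheory Set Filter Topology

namespace PR2aux

noncomputable def kk (x : ℝ) : ℤ := ⌈x / (2 * Real.pi)⌉ - 1

noncomputable def rd (x : ℝ) : ℝ := x - (kk x : ℝ) * (2 * Real.pi)

lemma tp : 0 < 2 * Real.pi := by positivity

lemma rd_meas : Measurable rd := by
  unfold rd kk
  have h1 : Measurable (fun x : ℝ => (⌈x / (2 * Real.pi)⌉ : ℤ)) :=
    Int.measurable_ceil.comp (measurable_id.div_const _)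
  have h2 : Measurable (fun x : ℝ => ((⌈x / (2 * Real.pi)⌉ - 1 : ℤ) : ℝ)) :=
    (measurable_from_top (f := fun z : ℤ => ((z - 1 : ℤ) : ℝ))).comp h1
  exact measurable_id.sub (h2.mul_const _)

lemma rd_of_mem {x : ℝ} (hx : x ∈ Ioc (0:ℝ) (2 * Real.pi)) : rd x = x := by
  have hc : ⌈x / (2 * Real.pi)⌉ = 1 := by
    rw [Int.ceil_eq_iff]
    constructor
    · simpa using div_pos hx.1 tp
    · simpa using (div_le_one tp).2 hx.2
  simp [rd, kk, hc]

lemma rd_add (x : ℝ) (k : ℤ) : rd (x + k * (2 * Real.pi)) = rd x := by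
  have hc : ⌈(x + k * (2 * Real.pi)) / (2 * Real.pi)⌉ = ⌈x / (2 * Real.pi)⌉ + k := by
    rw [add_div, mul_div_assoc, div_self tp.ne', mul_one, Int.ceil_add_intCast]
  simp only [rd, kk, hc]
  push_cast
  ring

lemma mp (α : ℝ) : MeasurePreserving (fun x => rd (x + α)) circ circ := by
  have hm : Measurable (fun x => rd (x + α)) := rd_meas.comp (measurable_id.add_const α)
  refine ⟨hm, ?_⟩
  ext s hs
  rw [Measure.map_apply hm hs]
  unfold circ
  rw [Measure.smul_apply, Measure.smul_apply]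
  congr 1
  rw [Measure.restrict_apply (hm hs), Measure.restrict_apply hs]
  have hE : MeasurableSet (rd ⁻¹' s) := rd_meas hs
  have h1 : (fun x => rd (x + α)) ⁻¹' s ∩ Ioc 0 (2 * Real.pi) =
      (fun x => x + α) ⁻¹' (rd ⁻¹' s ∩ Ioc α (α + 2 * Real.pi)) := by
    ext x
    simp only [mem_inter_iff, mem_preimage, mem_Ioc]
    constructor
    · rintro ⟨a, b, c⟩; exact ⟨a, by linarith, by linarith⟩
    · rintro ⟨a, b, c⟩; exact ⟨a, by linarith, by linarith⟩
  rw [show (fun x => rd (x + α)) ⁻¹' s ∩ Ioc 0 (2 * Real.pi) = _ from h1,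
    measure_preimage_add_right]
  have h2 := (isAddFundamentalDomain_Ioc tp α).measure_set_eq (isAddFundamentalDomain_Ioc tp 0)
    hE (by
      rintro ⟨g, hg⟩
      obtain ⟨k, rfl⟩ := AddSubgroup.mem_zmultiples_iff.1 hg
      ext x
      simp only [mem_preimage]
      have : (⟨k • (2 * Real.pi), hg⟩ : AddSubgroup.zmultiples (2 * Real.pi)) +ᵥ x =
          x + k * (2 * Real.pi) := by
        rw [AddSubgroup.vadd_def, vadd_eq_add]
        simp only [zsmul_eq_mul]
        ring
      rw [this, rd_add])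
  rw [h2]
  congr 1
  ext x
  simp only [mem_inter_iff, mem_preimage, zero_add]
  constructor
  · rintro ⟨a, b⟩; rw [rd_of_mem b] at a; exact ⟨a, b⟩
  · rintro ⟨a, b⟩; exact ⟨by rw [rd_of_mem b]; exact a, b⟩

lemma vy (y : ℕ) (σ α : ℝ) (φ : Pr y → ℝ) :
    Complex.exp (-((α : ℂ) * Complex.I)) * Vy y σ φ = Vy y σ (fun p => rd (φ p + α)) := by
  unfold Vy
  rw [Finset.mul_sum]
  refine Finset.sum_congr rfl fun p _ => ?_
  have h : Complex.exp (-(((rd (φ p + α) : ℝ) : ℂ) * Complex.I)) =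
      Complex.exp (-((α : ℂ) * Complex.I)) * Complex.exp (-((φ p : ℂ) * Complex.I)) := by
    rw [← Complex.exp_add]
    have : (-(((rd (φ p + α) : ℝ) : ℂ) * Complex.I)) =
        (-((α : ℂ) * Complex.I) + -((φ p : ℂ) * Complex.I)) +
          ((kk (φ p + α) : ℤ) : ℂ) * (2 * Real.pi * Complex.I) := by
      unfold rd
      push_cast
      ring
    rw [this, Complex.exp_add, Complex.exp_int_mul_two_pi_mul_I, mul_one]
  rw [h]
  ring

lemma vy_meas (y : ℕ) (σ : ℝ) : Measurable (fun φ : Pr y → ℝ => (Vy y σ φ).re) := by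
  have : Continuous (fun φ : Pr y → ℝ => (Vy y σ φ).re) := by
    unfold Vy
    fun_prop
  exact this.measurable

end PR2aux

open PR2aux in
theorem st_PR2 : ST_PR2 := by
  intro y σ α v
  have hm : MeasurePreserving (fun (φ : Pr y → ℝ) (p : Pr y) => rd (φ p + α)) (tor y) (tor y) :=
    measurePreserving_pi _ _ fun _ => mp α
  have hs : MeasurableSet {φ : Pr y → ℝ | v ≤ (Vy y σ φ).re} :=
    measurableSet_le measurable_const (vy_meas y σ)
  have := hm.measure_preimage hs.nullMeasurableSet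
  rw [measureReal_def, measureReal_def, ← this]
  congr 2
  ext φ
  simp only [Set.mem_ofPred_eq, mem_preimage]
  rw [vy]

end Pool.Agent.Helper57.QZ
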